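import Pool.Agent.Helper39.CR.GoalsP

/-! CAR stage 3, CHN: the chain of endomorphisms. -/

namespace Pool.Agent.Helper35.CR

/-- The condition `C(P)`. -/
def CC {M : Type} [AddCommGroup M] (P : AddMonoid.End M) : Prop :=
  (∀ y : ℕ → M, (∀ k, P (y (k + 1)) = y k) → ∀ k, y k = 0) ∧
    ∀ z : ℕ → M, ∃ t : ℕ → M, ∀ k, z k = t k - P (t (k + 1))

section

variable {M : Type} [AddCommGroup M]

theorem mul_ap (P V : AddMonoid.End M) (x : M) : (P * V) x = P (V x) := rfl

theorem CC.mul {P V : AddMonoid.End M} (hPV : P * V = V * P) (hP : CC P) : CC (P * V) := by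
  have hc : ∀ x, P (V x) = V (P x) := fun x => by
    rw [← mul_ap, hPV, mul_ap]
  have hcj : ∀ (j : ℕ) x, P ((V ^ j) x) = (V ^ j) (P x) := fun j x => by
    have h : P * V ^ j = V ^ j * P := (Commute.pow_right (show Commute P V from hPV) j)
    rw [← mul_ap, h, mul_ap]
  have hs : ∀ (j : ℕ) x, (V ^ (j + 1)) x = V ((V ^ j) x) := fun j x => by
    rw [pow_succ', mul_ap]
  have hs' : ∀ (j : ℕ) x, (V ^ (j + 1)) x = (V ^ j) (V x) := fun j x => by
    rw [pow_succ, mul_ap]
  constructor
  · intro y hy k
    have h := hP.1 (fun j => (V ^ j) (y (k + j))) (fun j => ?_) 0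
    · simpa using h
    · show P ((V ^ (j + 1)) (y (k + (j + 1)))) = (V ^ j) (y (k + j))
      rw [hs', hcj, ← mul_ap P V, ← add_assoc, hy]
  · intro z
    have hex : ∀ l, ∃ s : ℕ → M, ∀ j, (V ^ j) (z (l + j)) = s j - P (s (j + 1)) :=
      fun l => hP.2 fun j => (V ^ j) (z (l + j))
    choose s hs1 using hex
    have hP2 : ∀ l j, P (s l (j + 1)) = s l j - (V ^ j) (z (l + j)) := fun l j => by
      rw [hs1 l j]
      abel
    refine ⟨fun l => s l 0, fun l => ?_⟩
    have hd := hP.1 (fun j => s l (j + 1) - V (s (l + 1) j)) (fun j => ?_) 0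
    · have h0 := hs1 l 0
      have h1 : s l (0 + 1) = V (s (l + 1) 0) := sub_eq_zero.1 hd
      rw [h1] at h0
      simpa using h0
    · show P (s l (j + 1 + 1) - V (s (l + 1) (j + 1))) = s l (j + 1) - V (s (l + 1) j)
      rw [map_sub, hP2 l (j + 1), hc, hP2 (l + 1) j, map_sub, hs,
        show l + 1 + j = l + (j + 1) by omega]
      abel

theorem CC.of_pow {T : AddMonoid.End M} {a : ℕ} (ha : 1 ≤ a) (hT : CC (T ^ a)) : CC T := by
  have hs : ∀ (j : ℕ) x, (T ^ (j + 1)) x = T ((T ^ j) x) := fun j x => by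
    rw [pow_succ', mul_ap]
  have hs' : ∀ (j : ℕ) x, (T ^ (j + 1)) x = (T ^ j) (T x) := fun j x => by
    rw [pow_succ, mul_ap]
  -- uniqueness for steps of length `a`
  have huniq : ∀ y : ℕ → M, (∀ k, (T ^ a) (y (k + a)) = y k) → ∀ k, y k = 0 := by
    intro y hy k
    have h := hT.1 (fun j => y (k + a * j)) (fun j => ?_) 0
    · simpa using h
    · show (T ^ a) (y (k + a * (j + 1))) = y (k + a * j)
      rw [mul_add, mul_one, ← add_assoc, hy]
  constructor
  · intro y hy
    apply huniq
    have key : ∀ (b k : ℕ), (T ^ b) (y (k + b)) = y k := by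
      intro b
      induction b with
      | zero => intro k; simp
      | succ b ih =>
        intro k
        rw [hs', ← add_assoc, hy, ih]
    exact key a
  · intro z
    set w : ℕ → M := fun k => ∑ i ∈ Finset.range a, (T ^ i) (z (k + i)) with hw
    have hex : ∀ r, ∃ t : ℕ → M, ∀ j, w (r + a * j) = t j - (T ^ a) (t (j + 1)) :=
      fun r => hT.2 fun j => w (r + a * j)
    choose t ht using hex
    set u : ℕ → M := fun k => t (k % a) (k / a) with hu
    have hu1 : ∀ k, w k = u k - (T ^ a) (u (k + a)) := by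
      intro k
      have h1 := ht (k % a) (k / a)
      rw [Nat.mod_add_div] at h1
      rw [h1, hu]
      simp only []
      rw [Nat.add_mod_right, Nat.add_div_right _ (by omega)]
    have hTw : ∀ k, T (w (k + 1)) = w k - z k + (T ^ a) (z (k + a)) := by
      intro k
      rw [hw]
      simp only []
      rw [map_sum]
      have h1 : ∑ i ∈ Finset.range a, T ((T ^ i) (z (k + 1 + i))) =
          ∑ i ∈ Finset.range a, (T ^ (i + 1)) (z (k + (i + 1))) := by
        refine Finset.sum_congr rfl fun i _ => ?_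
        rw [hs, show k + 1 + i = k + (i + 1) by omega]
      have h2 := Finset.sum_range_succ' (fun i => (T ^ i) (z (k + i))) a
      have h3 := Finset.sum_range_succ (fun i => (T ^ i) (z (k + i))) a
      rw [h3] at h2
      simp only [pow_zero, add_zero] at h2
      have h4 : (1 : AddMonoid.End M) (z k) = z k := rfl
      rw [h4] at h2
      rw [h1, sub_add_eq_add_sub, eq_sub_iff_add_eq, h2]
    have hd := huniq (fun k => z k + T (u (k + 1)) - u k) (fun k => ?_)
    · refine ⟨u, fun k => ?_⟩
      have h := hd k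
      rw [sub_eq_zero] at h
      rw [← h]
      abel
    · show (T ^ a) (z (k + a) + T (u (k + a + 1)) - u (k + a)) = z k + T (u (k + 1)) - u k
      have h1 : (T ^ a) (T (u (k + a + 1))) = T (u (k + 1)) - T (w (k + 1)) := by
        rw [← hs', hs, hu1 (k + 1), map_sub, show k + 1 + a = k + a + 1 by omega]
        abel
      have h2 : (T ^ a) (u (k + a)) = u k - w k := by
        rw [hu1 k]
        abel
      rw [map_sub, map_add, h1, h2, hTw]
      abel

end

theorem chn : Pool.Agent.Helper39.CR.S_CHN := by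
  intro M _ T P V a ha hT hPV hP
  have h : CC (T ^ a) := by
    rw [hT]
    exact CC.mul hPV hP
  exact CC.of_pow ha h

end Pool.Agent.Helper35.CR
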