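import Pool.Agent.Helper39.CR.GoalsP

/-! CAR stage 3, TLL: from the inverse system to the fixed point algebra. -/

open scoped ComplexOrder ZeroAtInfty
open TopologicalSpace

namespace Pool.Agent.Helper35.CR

open Pool.Agent.Helper34.CAR Pool.Agent.Helper39.CR

theorem tll (hTGR : S_TGR) (hTKD : S_TKD) (hTWS : S_TWS) (hTTOW : S_TTOW) : S_TLL := by
  intro T B _ _ θ s L _ _ ι hL γ Z n hn hF hθ hLL i v
  have : NeZero n := ⟨by omega⟩
  obtain ⟨u, -, hu2, hu3, hu4⟩ := hTTOW B θ s L ι hL γ Z n hF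
  obtain ⟨hw1, hw2, hw3⟩ : (∀ k (j : ZMod n), ∃ x, wz s n (n + k) x = j) ∧
      (∀ k x, wz s n (k + 1) ((s.e k).symm (x, s.c0 k)) = wz s n k x + 1) ∧
      (∀ k x, wz s n (k + 1) ((s.e k).symm (x, s.c1 k)) = wz s n k x) := by
    refine ⟨fun k j => ?_, fun k x => ?_, fun k x => ?_⟩
    · obtain ⟨x, hx⟩ := (hTWS B θ s (n + k)).1 j.val (by have := ZMod.val_lt j; omega)
      refine ⟨x, ?_⟩
      rw [wz, hx, ZMod.natCast_zmod_val]
    · rw [wz, wz, (hTWS B θ s k).2.1]
      push_cast
      rfl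
    · rw [wz, wz, (hTWS B θ s k).2.2]
  -- the shifted tower
  have hmono : ∀ k m, Set.range (u k) ⊆ Set.range (u (m + k)) := by
    intro k m
    induction m with
    | zero => rw [zero_add]
    | succ m ih =>
      refine ih.trans ?_
      rintro _ ⟨a, rfl⟩
      have h1 : m + 1 + k = m + k + 1 := by ring
      rw [h1]
      exact ⟨kd s n (m + k) a, hu3 _ _⟩
  have hd : Dense (⋃ k, Set.range (u (n + k))) := by
    refine hu4.mono (Set.iUnion_subset fun k => ?_)
    exact (hmono k n).trans (Set.subset_iUnion (fun k => Set.range (u (n + k))) k)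
  have hM := fun i => T.milnor i (Fix γ Z) (fun k => Gd B (wz s n (n + k)))
    (fun k => kd s n (n + k)) (fun k => u (n + k)) (fun k => hu2 _) (fun k b => hu3 _ b) hd
  -- the connecting maps
  have hK : ∀ (i : ZMod 2) (k : ℕ) (y : T.F i (Gd B (wz s n (k + 1)))) (x : s.S k),
      T.map i (cd B (wz s n k) x) (T.map i (kd s n k) y) =
      T.map i (cd B (wz s n (k + 1)) ((s.e k).symm (x, s.c1 k))) y -
      T.map i (cd B (wz s n (k + 1)) ((s.e k).symm (x, s.c0 k))) y :=
    fun i k y x => hTKD T i B θ s (hθ i) n k y x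
  have hc : ∀ (i : ZMod 2) (k : ℕ) (x x' : s.S (n + k)),
      wz s n (n + k) x = wz s n (n + k) x' →
      T.map i (cd B (wz s n (n + k)) x) = T.map i (cd B (wz s n (n + k)) x') :=
    fun i k x x' h => (hTGR T i B (s.S (n + k)) (ZMod n) (wz s n (n + k))).1 x x' h
  choose xx hxx using hw1
  -- components of the image of a connecting map
  have hKc : ∀ (i : ZMod 2) (k : ℕ) (y : T.F i (Gd B (wz s n (n + (k + 1))))) (x : s.S (n + k)),
      T.map i (cd B (wz s n (n + k)) x) (T.map i (kd s n (n + k)) y) =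
      T.map i (cd B (wz s n (n + (k + 1))) (xx (k + 1) (wz s n (n + k) x))) y -
      T.map i (cd B (wz s n (n + (k + 1))) (xx (k + 1) (wz s n (n + k) x + 1))) y := by
    intro i k y x
    refine (hK i (n + k) y x).trans ?_
    have e2 := hw3 (n + k) x
    have e3 := hw2 (n + k) x
    have e4 := hc i (k + 1) ((s.e (n + k)).symm (x, s.c1 (n + k)))
      (xx (k + 1) (wz s n (n + k) x)) (e2.trans (hxx (k + 1) _).symm)
    have e5 := hc i (k + 1) ((s.e (n + k)).symm (x, s.c0 (n + k)))
      (xx (k + 1) (wz s n (n + k) x + 1)) (e3.trans (hxx (k + 1) _).symm)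
    exact congrArg₂ (· - ·) (DFunLike.congr_fun e4 y) (DFunLike.congr_fun e5 y)
  obtain ⟨-, d, hd1, hd2⟩ := hM i
  -- the restrictions vanish
  have hres : ∀ k, T.map i (u (n + k)) v = 0 := by
    have h1 := (hLL i).1 (fun k j => T.map i (cd B (wz s n (n + k)) (xx k j))
      (T.map i (u (n + k)) v)) (by
        intro k j
        have h2 : T.map i (kd s n (n + k)) (T.map i (u (n + (k + 1))) v) =
            T.map i (u (n + k)) v := by
          rw [← T.map_comp]
          have h3 : (u (n + (k + 1))).comp (kd s n (n + k)) = u (n + k) :=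
            DFunLike.ext _ _ fun b => hu3 (n + k) b
          exact congrArg (fun f => T.map i f v) h3
        have h4 := hKc i k (T.map i (u (n + (k + 1))) v) (xx k j)
        rw [h2, hxx k j] at h4
        exact h4.symm)
    intro k
    refine (hTGR T i B (s.S (n + k)) (ZMod n) (wz s n (n + k))).2.2 _ fun x => ?_
    rw [hc i k x (xx k (wz s n (n + k) x)) (hxx k _).symm]
    exact h1 k _
  obtain ⟨z, hz⟩ := (hd2 v).1 hres
  rw [← hz]
  refine (hd1 z).2 ?_
  obtain ⟨t', ht'⟩ := (hLL (i + 1)).2 fun k j => T.map (i + 1) (cd B (wz s n (n + k)) (xx k j)) (z k)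
  choose t ht using fun k =>
    (hTGR T (i + 1) B (s.S (n + k)) (ZMod n) (wz s n (n + k))).2.1 (t' k)
  refine ⟨t, fun k => ?_⟩
  rw [← sub_eq_zero]
  refine (hTGR T (i + 1) B (s.S (n + k)) (ZMod n) (wz s n (n + k))).2.2 _ fun x => ?_
  have h1 := ht' k (wz s n (n + k) x)
  have h2 := hc (i + 1) k x (xx k (wz s n (n + k) x)) (hxx k _).symm
  have h3 := hKc (i + 1) k (t (k + 1)) x
  rw [map_sub, map_sub, h3, ht k x, ht (k + 1), ht (k + 1), hxx, hxx, h2, h1, sub_self]

end Pool.Agent.Helper35.CR
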